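import Mathlib

/-!
Lemma A for helper732 (MP_efa40c_ag): if `F` is homogeneous of degree `d` and `D_p ^ a F = 0`, then
`F` vanishes to order at least `d + 1 - a` at `p`.
-/

set_option autoImplicit false

open MvPolynomial

namespace Pool.Agent.TH149.FI

/-- the directional derivative -/
noncomputable def D {N : ℕ} (p : Fin N → ℂ) :
    Derivation ℂ (MvPolynomial (Fin N) ℂ) (MvPolynomial (Fin N) ℂ) :=
  MvPolynomial.mkDerivation ℂ (fun i => MvPolynomial.C (p i))

theorem D_X {N : ℕ} (p : Fin N → ℂ) (i : Fin N) : D p (X i) = C (p i) := by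
  rw [D, mkDerivation_X]

theorem D_C {N : ℕ} (p : Fin N → ℂ) (a : ℂ) : D p (C a) = 0 := by
  rw [← MvPolynomial.algebraMap_eq]
  exact (D p).map_algebraMap a

theorem D_eq {N : ℕ} (p : Fin N → ℂ) (F : MvPolynomial (Fin N) ℂ) :
    D p F = ∑ i, C (p i) * pderiv i F := by
  classical
  induction F using MvPolynomial.induction_on with
  | C a =>
    rw [D_C]
    simp
  | add P Q hP hQ =>
    rw [map_add, hP, hQ, ← Finset.sum_add_distrib]
    apply Finset.sum_congr rfl
    intro i _
    rw [map_add, mul_add]
  | mul_X P j hP =>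
    rw [Derivation.leibniz, D_X, hP, smul_eq_mul, smul_eq_mul, Finset.mul_sum]
    have h1 : ∀ i, C (p i) * pderiv i (P * X j) =
        C (p i) * (P * (Pi.single i 1 : Fin N → MvPolynomial (Fin N) ℂ) j) +
          X j * (C (p i) * pderiv i P) := by
      intro i
      rw [Derivation.leibniz, pderiv_X, smul_eq_mul, smul_eq_mul]
      ring
    simp only [h1]
    rw [Finset.sum_add_distrib]
    congr 1
    rw [Finset.sum_eq_single j]
    · rw [Pi.single_eq_same, mul_one, mul_comm]
    · intro b _ hb
      rw [Pi.single_eq_of_ne (Ne.symm hb), mul_zero, mul_zero]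
    · intro h; exact absurd (Finset.mem_univ _) h

theorem D_hom {N : ℕ} (p : Fin N → ℂ) {F : MvPolynomial (Fin N) ℂ} {d : ℕ}
    (hF : F.IsHomogeneous d) : (D p F).IsHomogeneous (d - 1) := by
  rw [D_eq]
  apply IsHomogeneous.sum
  intro i _
  have := (isHomogeneous_C (Fin N) (p i)).mul (hF.pderiv (i := i))
  rwa [zero_add] at this

theorem D_iter_hom {N : ℕ} (p : Fin N → ℂ) {F : MvPolynomial (Fin N) ℂ} {d : ℕ}
    (hF : F.IsHomogeneous d) (j : ℕ) : ((D p)^[j] F).IsHomogeneous (d - j) := by
  induction j with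
  | zero => simpa using hF
  | succ j ih =>
    rw [Function.iterate_succ_apply']
    have := D_hom p ih
    rwa [Nat.sub_sub] at this

theorem scale {N : ℕ} {G : MvPolynomial (Fin N) ℂ} {e : ℕ} (hG : G.IsHomogeneous e)
    (τ : Polynomial ℂ) (v : Fin N → Polynomial ℂ) :
    aeval (fun i => τ * v i) G = τ ^ e * aeval v G := by
  rw [aeval_def, aeval_def, eval₂_eq', eval₂_eq', Finset.mul_sum]
  apply Finset.sum_congr rfl
  intro m hm
  have h1 : ∑ i, m i = e := by
    have := hG (mem_support_iff.1 hm)
    rw [Finsupp.weight_apply, Finsupp.sum_fintype] at this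
    · simpa using this
    · intro i; simp
  have h2 : ∏ i, (τ * v i) ^ m i = τ ^ e * ∏ i, v i ^ m i := by
    simp only [mul_pow]
    rw [Finset.prod_mul_distrib, Finset.prod_pow_eq_pow_sum, h1]
  rw [h2]
  ring

/-- the value on the line `s ↦ s p + y` -/
noncomputable def line {N : ℕ} (p : Fin N → ℂ) (y : Fin N → Polynomial ℂ) :
    MvPolynomial (Fin N) ℂ →ₐ[ℂ] Polynomial (Polynomial ℂ) :=
  aeval fun i => Polynomial.X * Polynomial.C (Polynomial.C (p i)) + Polynomial.C (y i)

theorem deriv_line {N : ℕ} (p : Fin N → ℂ) (y : Fin N → Polynomial ℂ)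
    (F : MvPolynomial (Fin N) ℂ) :
    Polynomial.derivative (line p y F) = line p y (D p F) := by
  induction F using MvPolynomial.induction_on with
  | C a =>
    have h1 : line p y (C a) = Polynomial.C (Polynomial.C a) := by
      rw [line, aeval_C]; rfl
    rw [h1, Polynomial.derivative_C]
    rw [D_C, map_zero]
  | add P Q hP hQ => rw [map_add, map_add, map_add, map_add, hP, hQ]
  | mul_X P i hP =>
    have h1 : line p y (X i) =
        Polynomial.X * Polynomial.C (Polynomial.C (p i)) + Polynomial.C (y i) := by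
      rw [line, aeval_X]
    have h2 : line p y (C (p i)) = Polynomial.C (Polynomial.C (p i)) := by
      rw [line, aeval_C]; rfl
    have h3 : line p y (P * C (p i) + X i * D p P) =
        line p y P * Polynomial.C (Polynomial.C (p i)) +
          (Polynomial.X * Polynomial.C (Polynomial.C (p i)) + Polynomial.C (y i)) *
            line p y (D p P) := by
      rw [map_add (line p y), map_mul (line p y), map_mul (line p y), h1, h2]
    have h4 : line p y (P * X i) = line p y P *
        (Polynomial.X * Polynomial.C (Polynomial.C (p i)) + Polynomial.C (y i)) := by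
      rw [map_mul (line p y), h1]
    rw [h4, Polynomial.derivative_mul, hP, Derivation.leibniz, D_X, smul_eq_mul,
      smul_eq_mul, h3]
    simp only [Polynomial.derivative_add, Polynomial.derivative_mul, Polynomial.derivative_X,
      Polynomial.derivative_C]
    ring

theorem line_zero {N : ℕ} (p : Fin N → ℂ) (y : Fin N → Polynomial ℂ)
    (F : MvPolynomial (Fin N) ℂ) : (line p y F).eval 0 = aeval y F := by
  induction F using MvPolynomial.induction_on with
  | C a =>
    have h1 : line p y (C a) = Polynomial.C (Polynomial.C a) := by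
      rw [line, aeval_C]; rfl
    rw [h1, Polynomial.eval_C, aeval_C]; rfl
  | add P Q hP hQ => rw [map_add, map_add, Polynomial.eval_add, hP, hQ]
  | mul_X P i hP =>
    have h1 : line p y (X i) =
        Polynomial.X * Polynomial.C (Polynomial.C (p i)) + Polynomial.C (y i) := by
      rw [line, aeval_X]
    rw [map_mul, map_mul, Polynomial.eval_mul, hP, h1, aeval_X]
    simp

theorem line_one {N : ℕ} (p : Fin N → ℂ) (y : Fin N → Polynomial ℂ)
    (F : MvPolynomial (Fin N) ℂ) :
    (line p y F).eval 1 = aeval (fun i => Polynomial.C (p i) + y i) F := by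
  induction F using MvPolynomial.induction_on with
  | C a =>
    have h1 : line p y (C a) = Polynomial.C (Polynomial.C a) := by
      rw [line, aeval_C]; rfl
    rw [h1, Polynomial.eval_C, aeval_C]; rfl
  | add P Q hP hQ => rw [map_add, map_add, Polynomial.eval_add, hP, hQ]
  | mul_X P i hP =>
    have h1 : line p y (X i) =
        Polynomial.X * Polynomial.C (Polynomial.C (p i)) + Polynomial.C (y i) := by
      rw [line, aeval_X]
    rw [map_mul, map_mul, Polynomial.eval_mul, hP, h1, aeval_X]
    simp

/-- the Taylor polynomial -/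
noncomputable def tay {N : ℕ} (p : Fin N → ℂ) (y : Fin N → Polynomial ℂ) (a : ℕ)
    (F : MvPolynomial (Fin N) ℂ) : Polynomial (Polynomial ℂ) :=
  ∑ j ∈ Finset.range a, Polynomial.monomial j
    (Polynomial.C ((j.factorial : ℂ)⁻¹) * aeval y ((D p)^[j] F))

theorem deriv_tay {N : ℕ} (p : Fin N → ℂ) (y : Fin N → Polynomial ℂ) (a : ℕ)
    (F : MvPolynomial (Fin N) ℂ) :
    Polynomial.derivative (tay p y (a + 1) F) = tay p y a (D p F) := by
  rw [tay, Finset.sum_range_succ', map_add, map_sum, tay]
  rw [Polynomial.derivative_monomial]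
  simp only [Nat.cast_zero, mul_zero, map_zero, add_zero]
  apply Finset.sum_congr rfl
  intro j _
  rw [Polynomial.derivative_monomial, Nat.add_sub_cancel, Function.iterate_succ_apply]
  congr 1
  have h : (Polynomial.C (((j + 1).factorial : ℂ)⁻¹) : Polynomial ℂ) * ((j + 1 : ℕ) : Polynomial ℂ)
      = Polynomial.C ((j.factorial : ℂ)⁻¹) := by
    have h1 : ((j + 1 : ℕ) : Polynomial ℂ) = Polynomial.C ((j + 1 : ℕ) : ℂ) := by simp
    rw [h1, ← Polynomial.C_mul]
    congr 1
    rw [Nat.factorial_succ]
    have h2 : ((j + 1 : ℕ) : ℂ) ≠ 0 := by exact_mod_cast Nat.succ_ne_zero j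
    have h3 : (j.factorial : ℂ) ≠ 0 := by exact_mod_cast Nat.factorial_ne_zero j
    push_cast at h2 ⊢
    field_simp
  calc _ = (Polynomial.C (((j + 1).factorial : ℂ)⁻¹) * ((j + 1 : ℕ) : Polynomial ℂ)) *
        aeval y ((D p)^[j] (D p F)) := by ring
    _ = _ := by rw [h]

theorem taylor {N : ℕ} (p : Fin N → ℂ) (y : Fin N → Polynomial ℂ) (a : ℕ) :
    ∀ F : MvPolynomial (Fin N) ℂ, (D p)^[a] F = 0 → line p y F = tay p y a F := by
  induction a with
  | zero =>
    intro F h
    have h0 : F = 0 := h
    rw [h0, map_zero, tay, Finset.sum_range_zero]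
  | succ a ih =>
    intro F h
    rw [Function.iterate_succ_apply] at h
    have h1 := ih (D p F) h
    have h2 : Polynomial.derivative (line p y F - tay p y (a + 1) F) = 0 := by
      rw [map_sub, deriv_line, deriv_tay, h1, sub_self]
    have h3 := Polynomial.natDegree_eq_zero_of_derivative_eq_zero h2
    have h4 := Polynomial.eq_C_of_natDegree_eq_zero h3
    have h5 : (line p y F - tay p y (a + 1) F).coeff 0 = 0 := by
      rw [Polynomial.coeff_zero_eq_eval_zero, Polynomial.eval_sub, line_zero, tay,
        Polynomial.eval_finset_sum, Finset.sum_range_succ']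
      have h6 : ∀ j (c : Polynomial ℂ), Polynomial.eval 0 (Polynomial.monomial (j + 1) c) = 0 := by
        intro j c
        rw [Polynomial.eval_monomial, pow_succ, mul_zero, mul_zero]
      simp only [h6]
      rw [Finset.sum_const_zero, zero_add, Polynomial.eval_monomial, pow_zero, mul_one,
        Nat.factorial_zero, Nat.cast_one, inv_one, Polynomial.C_1, one_mul]
      exact sub_self _
    rw [h5, map_zero] at h4
    exact sub_eq_zero.1 h4

/-- Lemma A. -/
theorem lemA' {N : ℕ} (p : Fin N → ℂ) (F : MvPolynomial (Fin N) ℂ) (d a : ℕ)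
    (hF : F.IsHomogeneous d) (h : (D p)^[a] F = 0) (v : Fin N → Polynomial ℂ)
    (τ : Polynomial ℂ) :
    τ ^ (d + 1 - a) ∣ aeval (fun i => Polynomial.C (p i) + τ * v i) F := by
  rw [← line_one p (fun i => τ * v i) F, taylor p _ a F h, tay, Polynomial.eval_finset_sum]
  apply Finset.dvd_sum
  intro j hj
  have hj' := Finset.mem_range.1 hj
  rw [Polynomial.eval_monomial, one_pow, mul_one]
  rw [scale (D_iter_hom p hF j)]
  apply Dvd.dvd.mul_left
  apply Dvd.dvd.mul_right
  exact pow_dvd_pow _ (by omega)

/-- Lemma A. -/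
theorem lemA {N : ℕ} (p : Fin N → ℂ) (F : MvPolynomial (Fin N) ℂ) (d a : ℕ)
    (hF : F.IsHomogeneous d)
    (h : (⇑(MvPolynomial.mkDerivation ℂ (fun i => MvPolynomial.C (p i)) :
      Derivation ℂ (MvPolynomial (Fin N) ℂ) (MvPolynomial (Fin N) ℂ)))^[a] F = 0)
    (v : Fin N → Polynomial ℂ) (τ : Polynomial ℂ) :
    τ ^ (d + 1 - a) ∣ MvPolynomial.aeval (fun i => Polynomial.C (p i) + τ * v i) F :=
  lemA' p F d a hF h v τ

end Pool.Agent.TH149.FI
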